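import Pool.Agent.U115.WN.Stm
import Pool.Agent.U333.WM.COV

/-!
# Package LOWA: the abstract lower bound
-/

set_option autoImplicit false

open scoped Classical
open Matrix

namespace Pool.Agent.U329.WN

open Pool.Agent.U115.WM Pool.Agent.U115.WN

/-- an integer near the root -/
theorem root {r : ℕ} (hr : 1 ≤ r) {x : ℝ} (hx : 1 ≤ x) :
    ∃ q : ℕ, 1 ≤ q ∧ (q : ℝ) ^ r ≤ x ∧ x ≤ 2 ^ r * (q : ℝ) ^ r := by
  have hr0 : (r : ℝ) ≠ 0 := by
    have : r ≠ 0 := by omega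
    exact_mod_cast this
  have hx0 : 0 ≤ x := by linarith
  have h1 : 1 ≤ x ^ (1 / (r : ℝ)) := Real.one_le_rpow hx (by positivity)
  have hxr : (x ^ (1 / (r : ℝ))) ^ r = x := by
    rw [← Real.rpow_natCast, ← Real.rpow_mul hx0, one_div, inv_mul_cancel₀ hr0, Real.rpow_one]
  refine ⟨⌊x ^ (1 / (r : ℝ))⌋₊, Nat.one_le_floor_iff _ |>.2 h1, ?_, ?_⟩
  · calc ((⌊x ^ (1 / (r : ℝ))⌋₊ : ℕ) : ℝ) ^ r ≤ (x ^ (1 / (r : ℝ))) ^ r := by
          gcongr
          exact Nat.floor_le (by linarith)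
      _ = x := hxr
  · rw [← mul_pow]
    calc x = (x ^ (1 / (r : ℝ))) ^ r := hxr.symm
      _ ≤ (2 * ((⌊x ^ (1 / (r : ℝ))⌋₊ : ℕ) : ℝ)) ^ r := by
          gcongr
          have h2 : x ^ (1 / (r : ℝ)) < (⌊x ^ (1 / (r : ℝ))⌋₊ : ℝ) + 1 := Nat.lt_floor_add_one _
          have h3 : (1 : ℝ) ≤ ((⌊x ^ (1 / (r : ℝ))⌋₊ : ℕ) : ℝ) := by
            exact_mod_cast (Nat.one_le_floor_iff _).2 h1
          linarith

/-- the covolumes -/
theorem cov_rpow {η C L v b : ℝ} (hη : 0 < η) (hC : 1 ≤ C) (hL : 0 < L) (h1 : η * L ≤ v)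
    (h2 : v ≤ C * L) : v ^ b ≤ (η ^ b + C ^ b) * L ^ b := by
  have hηL : 0 < η * L := mul_pos hη hL
  have hv : 0 < v := lt_of_lt_of_le hηL h1
  have p1 : 0 < η ^ b := Real.rpow_pos_of_pos hη b
  have p2 : 0 < C ^ b := Real.rpow_pos_of_pos (by linarith) b
  have p3 : 0 < L ^ b := Real.rpow_pos_of_pos hL b
  rcases le_or_gt 0 b with hb | hb
  · calc v ^ b ≤ (C * L) ^ b := Real.rpow_le_rpow hv.le h2 hb
      _ = C ^ b * L ^ b := Real.mul_rpow (by linarith) hL.le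
      _ ≤ (η ^ b + C ^ b) * L ^ b := by
          apply mul_le_mul_of_nonneg_right _ p3.le
          linarith
  · calc v ^ b ≤ (η * L) ^ b := Real.rpow_le_rpow_of_nonpos hηL h1 hb.le
      _ = η ^ b * L ^ b := Real.mul_rpow hη.le hL.le
      _ ≤ (η ^ b + C ^ b) * L ^ b := by
          apply mul_le_mul_of_nonneg_right _ p3.le
          linarith

/-- the height of the points -/
theorem height {n k r q lam : ℕ} {η C C' τ b v : ℝ} (hη : 0 < η) (hC : 1 ≤ C) (hC' : 0 < C')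
    (hlam : 1 ≤ lam) (h1 : η * (lam : ℝ) ^ k ≤ v) (h2 : v ≤ C * (lam : ℝ) ^ k)
    (hb : k * b + τ * r = k * n) :
    (C' * q * (lam : ℝ) ^ τ) ^ (r : ℝ) * v ^ b ≤
      (C' ^ r * (η ^ b + C ^ b)) * ((q : ℝ) ^ r * (lam : ℝ) ^ (n * k)) := by
  have hl : (0 : ℝ) < lam := by exact_mod_cast hlam
  have hL : (0 : ℝ) < (lam : ℝ) ^ k := by positivity
  have e1 := cov_rpow (b := b) hη hC hL h1 h2
  have e2 : (C' * q * (lam : ℝ) ^ τ) ^ (r : ℝ) = C' ^ r * (q : ℝ) ^ r * (lam : ℝ) ^ (τ * r) := by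
    rw [Real.rpow_natCast, mul_pow, mul_pow, ← Real.rpow_natCast ((lam : ℝ) ^ τ) r,
      ← Real.rpow_mul hl.le]
  have e3 : ((lam : ℝ) ^ k) ^ b = (lam : ℝ) ^ (k * b) := by
    rw [← Real.rpow_natCast, ← Real.rpow_mul hl.le]
  have e4 : (lam : ℝ) ^ (n * k) = (lam : ℝ) ^ (τ * r) * (lam : ℝ) ^ (k * b) := by
    rw [← Real.rpow_add hl, ← Real.rpow_natCast]
    congr 1
    push_cast
    linarith
  rw [e2, e4]
  rw [e3] at e1
  calc C' ^ r * (q : ℝ) ^ r * (lam : ℝ) ^ (τ * r) * v ^ b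
      ≤ C' ^ r * (q : ℝ) ^ r * (lam : ℝ) ^ (τ * r) * ((η ^ b + C ^ b) * (lam : ℝ) ^ (k * b)) := by
        apply mul_le_mul_of_nonneg_left e1
        positivity
    _ = _ := by ring

/-- different scales have different lattices -/
theorem scales {n k s : ℕ} {η C : ℝ} (hk : 1 ≤ k) (hη : 0 < η) (hs : 2 ≤ s) (hsC : C < η * s)
    {i j : ℕ} (hij : i < j) {Λ₀ : Set (Fin n → ℤ)} (h1 : Λ₀ ∈ WR n k η C (s ^ i))
    (h2 : Λ₀ ∈ WR n k η C (s ^ j)) : False := by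
  obtain ⟨-, B, hB, hl, -, hC, -⟩ := h1
  obtain ⟨-, B', hB', hl', hη', -, -⟩ := h2
  have hcov : cov B = cov B' := (Pool.Agent.U333.WM.t_COV.1 n k B B' hB hB' (hl.trans hl'.symm)).2
  have hs0 : (2 : ℝ) ≤ s := by exact_mod_cast hs
  push_cast at hC hη'
  have e1 : ((s : ℝ) ^ i) ^ k * s ≤ ((s : ℝ) ^ j) ^ k := by
    calc ((s : ℝ) ^ i) ^ k * s ≤ ((s : ℝ) ^ i) ^ k * s ^ k := by
          apply mul_le_mul_of_nonneg_left _ (by positivity)
          exact le_self_pow₀ (by linarith) (by omega)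
      _ = ((s : ℝ) ^ (i + 1)) ^ k := by rw [← mul_pow, pow_succ]
      _ ≤ ((s : ℝ) ^ j) ^ k := by
          gcongr
          · linarith
          · omega
  have e2 : 0 < ((s : ℝ) ^ i) ^ k := by positivity
  have e3 : C * ((s : ℝ) ^ i) ^ k < η * ((s : ℝ) ^ j) ^ k := by
    calc C * ((s : ℝ) ^ i) ^ k < (η * s) * ((s : ℝ) ^ i) ^ k := mul_lt_mul_of_pos_right hsC e2
      _ = η * (((s : ℝ) ^ i) ^ k * s) := by ring
      _ ≤ η * ((s : ℝ) ^ j) ^ k := mul_le_mul_of_nonneg_left e1 hη.le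
  linarith

theorem t_LOWA : S_LOWA := by
  intro n k r P Λ H c η C c' C' τ b hk hkn hr hc hη hC hc' hC' hWR hF hb
  have hn : 1 ≤ n := by omega
  -- the ratio of the scales
  obtain ⟨s, hs2, hsC⟩ : ∃ s : ℕ, 2 ≤ s ∧ C < η * s := by
    refine ⟨max 2 (⌊C / η⌋₊ + 1), le_max_left _ _, ?_⟩
    have h1 : C / η < ((max 2 (⌊C / η⌋₊ + 1) : ℕ) : ℝ) := by
      refine lt_of_lt_of_le (Nat.lt_floor_add_one (C / η)) ?_
      have : ⌊C / η⌋₊ + 1 ≤ max 2 (⌊C / η⌋₊ + 1) := le_max_right _ _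
      exact_mod_cast this
    rw [div_lt_iff₀ hη] at h1
    linarith
  have hs2' : (2 : ℝ) ≤ s := by exact_mod_cast hs2
  have hlogs : 0 < Real.log s := Real.log_pos (by linarith)
  set K : ℝ := C' ^ r * (η ^ b + C ^ b) with hK
  have hK0 : 0 < K := by
    have p1 : 0 < η ^ b := Real.rpow_pos_of_pos hη b
    have p2 : 0 < C ^ b := Real.rpow_pos_of_pos (by linarith) b
    positivity
  have hn' : (1 : ℝ) ≤ n := by exact_mod_cast hn
  have hk' : (1 : ℝ) ≤ k := by exact_mod_cast hk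
  have hw : 0 < (n : ℝ) * k * Real.log s := by positivity
  refine ⟨c * c' / (K * 2 ^ r) / (2 * ((n : ℝ) * k * Real.log s)), max 1 (K ^ 2), by positivity,
    le_max_left _ _, fun T hT hfin => ?_⟩
  have hT1 : 1 ≤ T := (le_max_left _ _).trans hT
  have hTK : K ^ 2 ≤ T := (le_max_right _ _).trans hT
  have hT0 : 0 < T := by linarith
  -- `T / K` is at least `√T`
  have hKT : K ≤ √T := by
    rw [← Real.sqrt_sq hK0.le]
    exact Real.sqrt_le_sqrt hTK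
  have hsT : 1 ≤ √T := by
    rw [← Real.sqrt_one]
    exact Real.sqrt_le_sqrt hT1
  have hTT : √T ≤ T / K := by
    rw [le_div_iff₀ hK0]
    calc √T * K ≤ √T * √T := mul_le_mul_of_nonneg_left hKT (by linarith)
      _ = T := Real.mul_self_sqrt hT0.le
  have hlogT : Real.log T / 2 ≤ Real.log (T / K) := by
    rw [← Real.log_sqrt hT0.le]
    exact Real.log_le_log (by linarith) hTT
  have hlogT0 : 0 ≤ Real.log T := Real.log_nonneg hT1
  -- the number of the scales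
  set y : ℝ := Real.log (T / K) / ((n : ℝ) * k * Real.log s) with hy
  have hy0 : 0 ≤ y := div_nonneg (by linarith) hw.le
  set J : ℕ := ⌊y⌋₊ + 1 with hJ
  have hJy : y ≤ J := by
    rw [hJ]
    push_cast
    exact (Nat.lt_floor_add_one y).le
  have hx : ∀ j, j < J → 1 ≤ T / (K * ((s : ℝ) ^ j) ^ (n * k)) := by
    intro j hj
    have h1 : (j : ℝ) ≤ y := by
      have h2 : j ≤ ⌊y⌋₊ := by omega
      exact (Nat.le_floor_iff hy0).1 h2
    rw [hy, le_div_iff₀ hw] at h1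
    have hp : 0 < ((s : ℝ) ^ j) ^ (n * k) := by positivity
    have h3 : Real.log (((s : ℝ) ^ j) ^ (n * k)) ≤ Real.log (T / K) := by
      rw [Real.log_pow, Real.log_pow]
      push_cast
      linarith
    have h4 : ((s : ℝ) ^ j) ^ (n * k) ≤ T / K :=
      (Real.log_le_log_iff hp (by positivity)).1 h3
    rw [le_div_iff₀ hK0] at h4
    rw [le_div_iff₀ (by positivity)]
    linarith
  -- the integers `q j`
  have hq : ∀ j, ∃ q : ℕ, j < J → 1 ≤ q ∧ (q : ℝ) ^ r ≤ T / (K * ((s : ℝ) ^ j) ^ (n * k)) ∧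
      T / (K * ((s : ℝ) ^ j) ^ (n * k)) ≤ 2 ^ r * (q : ℝ) ^ r := by
    intro j
    by_cases hj : j < J
    · obtain ⟨q, h1, h2, h3⟩ := root hr (hx j hj)
      exact ⟨q, fun _ => ⟨h1, h2, h3⟩⟩
    · exact ⟨0, fun h => absurd h hj⟩
  choose q hq using hq
  have hs1 : ∀ j, 1 ≤ s ^ j := fun j => Nat.one_le_pow _ _ (by omega)
  have hF' : ∀ (j : ℕ) (Λ₀ : Set (Fin n → ℤ)), ∃ F : Finset P, j < J → Λ₀ ∈ WR n k η C (s ^ j) →
      (∀ p ∈ F, Λ p = Λ₀ ∧ H p (C' * q j * ((s ^ j : ℕ) : ℝ) ^ τ)) ∧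
        c' * (q j : ℝ) ^ r ≤ F.card := by
    intro j Λ₀
    by_cases hj : j < J ∧ Λ₀ ∈ WR n k η C (s ^ j)
    · obtain ⟨F, hF1⟩ := hF (s ^ j) (hs1 j) Λ₀ hj.2 (q j) (hq j hj.1).1
      exact ⟨F, fun _ _ => hF1⟩
    · exact ⟨∅, fun h1 h2 => absurd ⟨h1, h2⟩ hj⟩
  choose F hF' using hF'
  let 𝓛 : ℕ → Finset (Set (Fin n → ℤ)) := fun j => (hWR (s ^ j) (hs1 j)).1.toFinset
  have h𝓛 : ∀ j Λ₀, Λ₀ ∈ 𝓛 j ↔ Λ₀ ∈ WR n k η C (s ^ j) := fun j Λ₀ =>
    (hWR (s ^ j) (hs1 j)).1.mem_toFinset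
  let G : Finset P := (Finset.range J).biUnion fun j => (𝓛 j).biUnion (F j)
  -- the points are in the set
  have hG : (G : Set P) ⊆ {p : P | ∃ (B : Matrix (Fin n) (Fin k) ℤ) (h : ℝ), Inj B ∧
      lat B = Λ p ∧ 0 < h ∧ H p h ∧ h ^ (r : ℝ) * cov B ^ b ≤ T} := by
    intro p hp
    have hp' : p ∈ G := hp
    simp only [G, Finset.mem_biUnion, Finset.mem_range] at hp'
    obtain ⟨j, hj, Λ₀, hΛ, hpF⟩ := hp'
    rw [h𝓛] at hΛ
    obtain ⟨h1, h2⟩ := (hF' j Λ₀ hj hΛ).1 p hpF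
    obtain ⟨-, B, hB, hl, hη', hC'', -⟩ := hΛ
    obtain ⟨hq1, hq2, -⟩ := hq j hj
    have hq0 : (0 : ℝ) < q j := by exact_mod_cast hq1
    have hsj : (0 : ℝ) < ((s ^ j : ℕ) : ℝ) := by exact_mod_cast hs1 j
    have hsτ : 0 < ((s ^ j : ℕ) : ℝ) ^ τ := Real.rpow_pos_of_pos hsj τ
    refine ⟨B, _, hB, hl.trans h1.symm, by positivity, h2, ?_⟩
    refine (height (n := n) (q := q j) hη hC hC' (hs1 j) hη' hC'' hb).trans ?_
    rw [← hK]
    push_cast
    have hp0 : 0 < K * ((s : ℝ) ^ j) ^ (n * k) := by positivity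
    calc K * ((q j : ℝ) ^ r * ((s : ℝ) ^ j) ^ (n * k))
        = (q j : ℝ) ^ r * (K * ((s : ℝ) ^ j) ^ (n * k)) := by ring
      _ ≤ T / (K * ((s : ℝ) ^ j) ^ (n * k)) * (K * ((s : ℝ) ^ j) ^ (n * k)) :=
          mul_le_mul_of_nonneg_right hq2 hp0.le
      _ = T := by field_simp
  -- the number of the points
  have hcard : (J : ℝ) * (c * c' / (K * 2 ^ r) * T) ≤ (G.card : ℝ) := by
    have hd1 : ∀ j ∈ Finset.range J, ∀ i ∈ Finset.range J, j ≠ i →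
        Disjoint ((𝓛 j).biUnion (F j)) ((𝓛 i).biUnion (F i)) := by
      intro j hj i hi hji
      rw [Finset.mem_range] at hj hi
      rw [Finset.disjoint_left]
      intro p hp1 hp2
      rw [Finset.mem_biUnion] at hp1 hp2
      obtain ⟨Λ₁, h1, h2⟩ := hp1
      obtain ⟨Λ₂, h3, h4⟩ := hp2
      rw [h𝓛] at h1 h3
      have e1 := ((hF' j Λ₁ hj h1).1 p h2).1
      have e2 := ((hF' i Λ₂ hi h3).1 p h4).1
      have e3 : Λ₁ = Λ₂ := e1.symm.trans e2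
      subst e3
      rcases lt_or_gt_of_ne hji with h | h
      · exact scales hk hη hs2 hsC h h1 h3
      · exact scales hk hη hs2 hsC h h3 h1
    have hd2 : ∀ j ∈ Finset.range J, ((𝓛 j).biUnion (F j)).card = ∑ Λ₀ ∈ 𝓛 j, (F j Λ₀).card := by
      intro j hj
      rw [Finset.mem_range] at hj
      apply Finset.card_biUnion
      intro Λ₁ h1 Λ₂ h2 hne
      rw [Function.onFun, Finset.disjoint_left]
      intro p hp1 hp2
      apply hne
      have h1' := (h𝓛 j Λ₁).1 h1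
      have h2' := (h𝓛 j Λ₂).1 h2
      exact ((hF' j Λ₁ hj h1').1 p hp1).1.symm.trans ((hF' j Λ₂ hj h2').1 p hp2).1
    have e0 : G.card = ∑ j ∈ Finset.range J, ((𝓛 j).biUnion (F j)).card :=
      Finset.card_biUnion hd1
    rw [e0, Finset.sum_congr rfl hd2]
    push_cast
    have e1 : ∀ j ∈ Finset.range J, c * c' / (K * 2 ^ r) * T ≤
        ∑ Λ₀ ∈ 𝓛 j, ((F j Λ₀).card : ℝ) := by
      intro j hj
      rw [Finset.mem_range] at hj
      obtain ⟨hq1, -, hq3⟩ := hq j hj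
      have h1 : ((𝓛 j).card : ℝ) * (c' * (q j : ℝ) ^ r) ≤ ∑ Λ₀ ∈ 𝓛 j, ((F j Λ₀).card : ℝ) := by
        rw [← nsmul_eq_mul]
        apply Finset.card_nsmul_le_sum
        intro Λ₀ hΛ
        exact (hF' j Λ₀ hj ((h𝓛 j Λ₀).1 hΛ)).2
      have h2 : c * ((s : ℝ) ^ j) ^ (n * k) ≤ ((𝓛 j).card : ℝ) := by
        have h3 := (hWR (s ^ j) (hs1 j)).2
        rw [Set.ncard_eq_toFinset_card _ (hWR (s ^ j) (hs1 j)).1] at h3
        push_cast at h3
        exact h3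
      have hp0 : 0 < K * ((s : ℝ) ^ j) ^ (n * k) := by positivity
      rw [div_le_iff₀ hp0] at hq3
      refine le_trans ?_ h1
      calc c * c' / (K * 2 ^ r) * T
          ≤ c * c' / (K * 2 ^ r) * (2 ^ r * (q j : ℝ) ^ r * (K * ((s : ℝ) ^ j) ^ (n * k))) := by
            apply mul_le_mul_of_nonneg_left hq3
            positivity
        _ = c * ((s : ℝ) ^ j) ^ (n * k) * (c' * (q j : ℝ) ^ r) := by
            field_simp
        _ ≤ ((𝓛 j).card : ℝ) * (c' * (q j : ℝ) ^ r) := by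
            apply mul_le_mul_of_nonneg_right h2
            positivity
    calc (J : ℝ) * (c * c' / (K * 2 ^ r) * T)
        = ∑ j ∈ Finset.range J, c * c' / (K * 2 ^ r) * T := by
          rw [Finset.sum_const, Finset.card_range, nsmul_eq_mul]
      _ ≤ _ := Finset.sum_le_sum e1
  have hcard2 : (G.card : ℝ) ≤ ({p : P | ∃ (B : Matrix (Fin n) (Fin k) ℤ) (h : ℝ), Inj B ∧
      lat B = Λ p ∧ 0 < h ∧ H p h ∧ h ^ (r : ℝ) * cov B ^ b ≤ T}.ncard : ℝ) := by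
    have h1 := Set.ncard_le_ncard hG hfin
    rw [Set.ncard_coe_finset] at h1
    exact_mod_cast h1
  refine le_trans ?_ (hcard.trans hcard2)
  have h5 : Real.log T / (2 * ((n : ℝ) * k * Real.log s)) ≤ J := by
    refine le_trans ?_ hJy
    rw [hy, ← div_div]
    exact div_le_div_of_nonneg_right hlogT hw.le
  calc c * c' / (K * 2 ^ r) / (2 * ((n : ℝ) * k * Real.log s)) * T * Real.log T
      = Real.log T / (2 * ((n : ℝ) * k * Real.log s)) * (c * c' / (K * 2 ^ r) * T) := by ring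
    _ ≤ (J : ℝ) * (c * c' / (K * 2 ^ r) * T) := by
        apply mul_le_mul_of_nonneg_right h5
        positivity

end Pool.Agent.U329.WN
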